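import Mathlib
import Pool.Agent.H15.IS3

set_option autoImplicit false

namespace Pool.Agent.Results.MP_44d715_an.Coercive

open Pool.Agent.H15.IS Filter Topology

/-- The heat equation with Dirichlet boundary input has a coercive ISS Lyapunov function. -/
theorem result : (∃ φ, IsMild φ) ∧ ∃ (V : X → ℝ) (κ : ℝ), 0 < κ ∧ Continuous V ∧
    (∀ x, ‖x‖ ^ 8 ≤ V x ∧ V x ≤ 128 * ‖x‖ ^ 8) ∧
    ∀ φ, IsMild φ → ∀ (x : X) (u : Inp),
      limsup (fun h : ℝ => (((V (φ h x u) - V x) / h : ℝ) : EReal)) (𝓝[>] 0) ≤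
        ((-‖x‖ ^ 8 + κ * ‖u‖ ^ 8 : ℝ) : EReal) :=
  main

end Pool.Agent.Results.MP_44d715_an.Coercive
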